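import Pool.Agent.N521.K15.Cnt2
import Pool.Agent.N875.K15.Stm

/-!
# K15-CNT: the number of the classes (helper875's subtask 5570)
-/

set_option autoImplicit false

namespace Pool.Agent.N521.K15

open Pool.Agent.N875.K15 Pool.Agent.N875.X15

lemma rel_iff {m a b : ℤ} : Rel m a b ↔ Rel' m a b := by
  constructor
  · intro h
    exact ⟨h.sa, h.sb, h.da, h.db, h.c2, h.c3, h.c5, h.pos⟩
  · intro h
    exact ⟨h.sa, h.sb, h.da, h.db, h.c2, h.c3, h.c5, h.pos⟩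

lemma tt_eq (m : ℤ) : tt m = (R m).card := by
  unfold tt R
  have h : PR m = PR' m := rfl
  rw [h]

theorem t_CNT : S_CNT := by
  intro m hm hm1 hm2 _ hRt hH1 hH2
  have hR : ∀ p : ℕ, p ∈ PR m ∧ p ≠ 5 ∧ jacobiSym p 5 = -1 → p ∈ R m ∧ jacobiSym p 5 = -1 :=
    fun p hp => ⟨Finset.mem_erase.2 ⟨hp.2.1, hp.1⟩, hp.2.2⟩
  by_cases h3 : m % 3 = 2
  · have hH : (m < 0 ∧ jacobiSym m 5 = 1) ∨ (0 < m ∧ jacobiSym m 5 ≠ 1) := by
      rcases hRt with h | h | h | h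
      · exact Or.inl ⟨h.1, h.2.2⟩
      · exact absurd h3 h.2.1
      · exact Or.inr ⟨h.1, h.2.2⟩
      · exact absurd h3 h.2.1
    obtain ⟨S, h1, h2, h4, h5⟩ := count2 hm hm1 hm2 h3 hH
      (fun h => (hH1 (Or.inl h)).imp hR)
    refine ⟨S, fun z hz => rel_iff.2 (h1 z hz), h2, fun a b h => h4 a b (rel_iff.1 h), ?_⟩
    have hd : dd m = 1 := by
      unfold dd
      rw [if_neg]
      rintro ⟨h6, h7⟩
      rcases hH with ⟨h8, -⟩ | ⟨-, h8⟩
      · exact absurd h6 (not_lt.2 h8.le)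
      · exact h8 h7
    rw [h5, tt_eq, hd, Nat.add_sub_cancel]
  · have hH : (m < 0 ∧ jacobiSym m 5 ≠ 1) ∨ (0 < m ∧ jacobiSym m 5 = 1) := by
      rcases hRt with h | h | h | h
      · exact absurd h.2.1 h3
      · exact Or.inl ⟨h.1, h.2.2⟩
      · exact absurd h.2.1 h3
      · exact Or.inr ⟨h.1, h.2.2⟩
    obtain ⟨S, h1, h2, h4, h5⟩ := count1 hm hm1 hm2 h3 hH
      (fun h => (hH1 (h.imp id fun h => ⟨h.1, h.2, h3⟩)).imp hR)
      (fun h => hH2 ⟨h, h3⟩)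
    refine ⟨S, fun z hz => rel_iff.2 (h1 z hz), h2, fun a b h => h4 a b (rel_iff.1 h), ?_⟩
    rw [h5, tt_eq]
    rfl

end Pool.Agent.N521.K15
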