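import Pool.Agent.N521.K15.Cnt1

/-!
# K15-CNT: the products of the two parts, and the prime `3`
-/

set_option autoImplicit false

namespace Pool.Agent.N521.K15

open scoped Classical
open Pool.Agent.N530.K17 (Eqv')

/-! ### the relations -/

/-- the condition at `2` (copy of `N875.K17.C2`) -/
def C2' (m a b : ℤ) : Prop := (m % 4 = 1 → ¬ (2 : ℤ) ∣ a ∧ b % 4 = 1) ∧ (m % 4 = 3 → ¬ (2 : ℤ) ∣ b) ∧
  ((2 : ℤ) ∣ m → (b % 4 = 1 ∨ ((2 : ℤ) ∣ b ∧ ((b / 2) * (m / 2)) % 4 = 1)))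

/-- the condition at `3` (copy of `N875.K15.C3`) -/
def C3' (m a b : ℤ) : Prop := (m % 3 = 1 → ¬ (3 : ℤ) ∣ a ∧ ¬ (3 : ℤ) ∣ b) ∧
  (m % 3 = 2 → ((3 : ℤ) ∣ a ↔ (3 : ℤ) ∣ b))

/-- the classes (copy of `N875.K15.Rel`) -/
structure Rel' (m a b : ℤ) : Prop where
  sa : Squarefree a
  sb : Squarefree b
  da : ∀ p : ℕ, p.Prime → p ≠ 2 → p ≠ 3 → p ≠ 5 → (p : ℤ) ∣ a → (p : ℤ) ∣ m
  db : ∀ p : ℕ, p.Prime → p ≠ 2 → p ≠ 3 → p ≠ 5 → (p : ℤ) ∣ b → (p : ℤ) ∣ m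
  c2 : C2' m a b
  c3 : C3' m a b
  c5 : C5' 1 m a
  pos : 0 < m → 0 < b

/-- the classes prime to `3` outside `m` -/
lemma rel_of {m a b : ℤ} (h : Rel' m a b) (ha : (3 : ℤ) ∣ a → (3 : ℤ) ∣ m)
    (hb : (3 : ℤ) ∣ b → (3 : ℤ) ∣ m) : RA 1 m a ∧ RB (0 < m) m b := by
  refine ⟨⟨h.sa, ?_, fun h4 => (h.c2.1 h4).1, h.c5⟩,
    ⟨h.sb, ?_, fun h4 => (h.c2.1 h4).2, h.c2.2.1, h.c2.2.2, h.pos⟩⟩
  · intro p hp h2 h5 hd
    by_cases h3 : p = 3
    · subst h3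
      exact ha hd
    · exact h.da p hp h2 h3 h5 hd
  · intro p hp h2 h5 hd
    by_cases h3 : p = 3
    · subst h3
      exact hb hd
    · exact h.db p hp h2 h3 h5 hd

lemma RA.three {e m a : ℤ} (h : RA e m a) (h3 : (3 : ℤ) ∣ a) : (3 : ℤ) ∣ m :=
  h.2.1 3 Nat.prime_three (by decide) (by decide) h3

lemma RB.three {s : Prop} {m b : ℤ} (h : RB s m b) (h3 : (3 : ℤ) ∣ b) : (3 : ℤ) ∣ m :=
  h.2.1 3 Nat.prime_three (by decide) (by decide) h3

lemma of_rel {m a b : ℤ} (ha : RA 1 m a) (hb : RB (0 < m) m b) : Rel' m a b where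
  sa := ha.1
  sb := hb.1
  da := fun p hp h2 _ h5 hd => ha.2.1 p hp h2 h5 hd
  db := fun p hp h2 _ h5 hd => hb.2.1 p hp h2 h5 hd
  c2 := ⟨fun h => ⟨ha.2.2.1 h, hb.2.2.1 h⟩, hb.2.2.2.1, hb.2.2.2.2.1⟩
  c3 := by
    constructor
    · intro h
      exact ⟨fun h3 => by have := ha.three h3; omega, fun h3 => by have := hb.three h3; omega⟩
    · intro h
      exact ⟨fun h3 => by have := ha.three h3; omega, fun h3 => by have := hb.three h3; omega⟩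
  c5 := ha.2.2.2
  pos := hb.2.2.2.2.2

lemma mod3 {m : ℤ} (h3 : m % 3 ≠ 2) (h5 : ¬ (3 : ℤ) ∣ m) : m % 3 = 1 := by omega

lemma jac_m3 (x : ℤ) : jacobiSym (-3 * x) 5 = - jacobiSym x 5 := by
  rw [jacobiSym.mul_left]
  have h : jacobiSym (-3) 5 = -1 := by
    rw [jacobiSym.mod_left]
    norm_num
  rw [h]
  ring

lemma c5_m3 {m a : ℤ} : C5' 1 m (-3 * a) ↔ C5' (-1) m a := by
  have h5 : (5 : ℤ) ∣ -3 * a ↔ (5 : ℤ) ∣ a := by omega
  unfold C5'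
  rw [h5, jac_m3]
  have h1 : ∀ x : ℤ, - x = 1 ↔ x = -1 := fun x => by omega
  rw [h1]
  have h2 : ((5 : ℤ) ∣ a ∧ jacobiSym (-3 * a / 5 * (m / 5)) 5 = 1) ↔
      ((5 : ℤ) ∣ a ∧ jacobiSym (a / 5 * (m / 5)) 5 = -1) := by
    constructor
    · rintro ⟨h, h3⟩
      refine ⟨h, ?_⟩
      have e : -3 * a / 5 * (m / 5) = -3 * (a / 5 * (m / 5)) := by
        have : -3 * a / 5 = -3 * (a / 5) := by omega
        rw [this]
        ring
      rw [e, jac_m3] at h3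
      exact (h1 _).1 h3
    · rintro ⟨h, h3⟩
      refine ⟨h, ?_⟩
      have e : -3 * a / 5 * (m / 5) = -3 * (a / 5 * (m / 5)) := by
        have : -3 * a / 5 = -3 * (a / 5) := by omega
        rw [this]
        ring
      rw [e, jac_m3, h3]
      rfl
  rw [h2]

lemma c2_m3 {m a b : ℤ} : C2' m (-3 * a) (-3 * b) ↔ C2' m a b := by
  have h2 : ∀ x : ℤ, (2 : ℤ) ∣ -3 * x ↔ (2 : ℤ) ∣ x := fun x => by omega
  have h4 : ∀ x : ℤ, (-3 * x) % 4 = x % 4 := fun x => by omega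
  unfold C2'
  rw [h2, h2, h4]
  have h5 : ((2 : ℤ) ∣ b ∧ (-3 * b / 2 * (m / 2)) % 4 = 1) ↔
      ((2 : ℤ) ∣ b ∧ (b / 2 * (m / 2)) % 4 = 1) := by
    refine and_congr_right fun h => ?_
    have e : -3 * b / 2 * (m / 2) = -3 * (b / 2 * (m / 2)) := by
      have : -3 * b / 2 = -3 * (b / 2) := by omega
      rw [this]
      ring
    rw [e, h4]
  rw [h5]

lemma sqf_m3 {a : ℤ} (h3 : ¬ (3 : ℤ) ∣ a) : Squarefree (-3 * a) ↔ Squarefree a := by
  constructor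
  · intro h
    exact h.squarefree_of_dvd (Dvd.intro_left _ rfl)
  · intro h
    have h1 : Squarefree (3 * a) := by
      rw [squarefree_mul_iff]
      have hp : Prime (3 : ℤ) := Int.prime_three
      refine ⟨?_, hp.squarefree, h⟩
      rw [hp.irreducible.isRelPrime_iff_not_dvd]
      exact h3
    have e : -3 * a = -(3 * a) := by ring
    rw [e]
    exact Int.squarefree_natAbs.1 (by rw [Int.natAbs_neg]; exact Int.squarefree_natAbs.2 h1)

/-- the second kind of classes, if `3` is inert -/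
lemma rel_of3 {m a b : ℤ} (h3 : m % 3 = 2) (h : Rel' m a b) (hd : (3 : ℤ) ∣ a) :
    ∃ a' b' : ℤ, a = -3 * a' ∧ b = -3 * b' ∧ RA (-1) m a' ∧ RB False m b' ∧ (0 < m → b' < 0) := by
  have hdb : (3 : ℤ) ∣ b := (h.c3.2 h3).1 hd
  obtain ⟨a', rfl⟩ : ∃ a', a = -3 * a' := by
    obtain ⟨k, rfl⟩ := hd
    exact ⟨-k, by ring⟩
  obtain ⟨b', rfl⟩ : ∃ b', b = -3 * b' := by
    obtain ⟨k, rfl⟩ := hdb
    exact ⟨-k, by ring⟩
  have key : ∀ x : ℤ, Squarefree (-3 * x) → ¬ (3 : ℤ) ∣ x := by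
    intro x hx h3
    obtain ⟨k, rfl⟩ := h3
    have h1 : IsUnit (3 : ℤ) := hx 3 ⟨-k, by ring⟩
    exact Int.prime_three.not_isUnit h1
  have h3a := key _ h.sa
  have h3b := key _ h.sb
  have c2 := c2_m3.1 h.c2
  refine ⟨a', b', rfl, rfl, ⟨(sqf_m3 h3a).1 h.sa, ?_, fun h4 => (c2.1 h4).1, c5_m3.1 h.c5⟩,
    ⟨(sqf_m3 h3b).1 h.sb, ?_, fun h4 => (c2.1 h4).2, c2.2.1, c2.2.2, fun h => h.elim⟩, ?_⟩
  · intro p hp h2 h5 hd
    by_cases h3 : p = 3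
    · subst h3
      exact absurd hd h3a
    · exact h.da p hp h2 h3 h5 (Dvd.dvd.mul_left hd _)
  · intro p hp h2 h5 hd
    by_cases h3 : p = 3
    · subst h3
      exact absurd hd h3b
    · exact h.db p hp h2 h3 h5 (Dvd.dvd.mul_left hd _)
  · intro hm
    have := h.pos hm
    omega

lemma of_rel3 {m a b : ℤ} (h3 : m % 3 = 2) (ha : RA (-1) m a) (hb : RB False m b)
    (hs : 0 < m → b < 0) : Rel' m (-3 * a) (-3 * b) := by
  have h3a : ¬ (3 : ℤ) ∣ a := fun h => by have := ha.three h; omega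
  have h3b : ¬ (3 : ℤ) ∣ b := fun h => by have := hb.three h; omega
  have hpd : ∀ p : ℕ, p.Prime → p ≠ 3 → ∀ x : ℤ, (p : ℤ) ∣ -3 * x → (p : ℤ) ∣ x := by
    intro p hp hp3 x h
    have hpp := Nat.prime_iff_prime_int.1 hp
    rcases hpp.dvd_or_dvd h with h1 | h1
    · exfalso
      rw [dvd_neg] at h1
      have h2 : p ∣ 3 := by exact_mod_cast h1
      exact hp3 ((Nat.prime_dvd_prime_iff_eq hp Nat.prime_three).1 h2)
    · exact h1
  exact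
    { sa := (sqf_m3 h3a).2 ha.1
      sb := (sqf_m3 h3b).2 hb.1
      da := fun p hp h2 h3 h5 hd => ha.2.1 p hp h2 h5 (hpd p hp h3 a hd)
      db := fun p hp h2 h3 h5 hd => hb.2.1 p hp h2 h5 (hpd p hp h3 b hd)
      c2 := c2_m3.2 ⟨fun h => ⟨ha.2.2.1 h, hb.2.2.1 h⟩, hb.2.2.2.1, hb.2.2.2.2.1⟩
      c3 := ⟨fun h => by omega, fun _ => ⟨fun _ => Dvd.intro (-b) (by ring), fun _ => Dvd.intro (-a) (by ring)⟩⟩
      c5 := c5_m3.2 ha.2.2.2
      pos := fun h => by have := hs h; omega }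

/-! ### `3` not inert -/

theorem count1 {m : ℤ} (hm : Squarefree m) (hm1 : m ≠ 1) (hm2 : m ≠ -1) (h3 : m % 3 ≠ 2)
    (hH : (m < 0 ∧ jacobiSym m 5 ≠ 1) ∨ (0 < m ∧ jacobiSym m 5 = 1))
    (hH1 : ((5 : ℤ) ∣ m ∨ (0 < m ∧ jacobiSym m 5 = 1)) → ∃ p : ℕ, p ∈ R m ∧ jacobiSym p 5 = -1)
    (hH2 : 0 < m → m % 4 = 3 ∨ ∃ p : ℕ, p.Prime ∧ (p : ℤ) ∣ m ∧ p % 4 = 3) :
    ∃ S : Finset (ℤ × ℤ), (∀ z ∈ S, Rel' m z.1 z.2) ∧
      (∀ z ∈ S, ∀ z' ∈ S, Eqv' m z.1 z'.1 → Eqv' m z.2 z'.2 → z = z') ∧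
      (∀ a b : ℤ, Rel' m a b → ∃ z ∈ S, Eqv' m a z.1 ∧ Eqv' m b z.2) ∧
      S.card = 4 ^ ((R m).card + 1 - if 0 < m ∧ jacobiSym m 5 = 1 then 2 else 1) := by
  obtain ⟨SA, hA, cA1, -, cA3, cA4⟩ := part_A hm hm1 hm2
  obtain ⟨a1, a2, a3⟩ := hA 1 (Or.inl rfl)
  obtain ⟨SB, ⟨b1, b2, b3⟩, b4⟩ := part_B (s := 0 < m) hm hm1 hm2 (fun h => h) hH2
  refine ⟨SA 1 ×ˢ SB, ?_, ?_, ?_, ?_⟩
  · intro z hz
    rw [Finset.mem_product] at hz
    exact of_rel (a1 _ hz.1) (b1 _ hz.2)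
  · intro z hz z' hz' h1 h2
    rw [Finset.mem_product] at hz hz'
    exact Prod.ext (a2 _ hz.1 _ hz'.1 h1) (b2 _ hz.2 _ hz'.2 h2)
  · intro a b h
    have h' : RA 1 m a ∧ RB (0 < m) m b := by
      refine rel_of h ?_ ?_
      · intro h4
        by_contra h5
        exact (h.c3.1 (mod3 h3 h5)).1 h4
      · intro h4
        by_contra h5
        exact (h.c3.1 (mod3 h3 h5)).2 h4
    obtain ⟨x, hx, hx'⟩ := a3 a h'.1
    obtain ⟨y, hy, hy'⟩ := b3 b h'.2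
    exact ⟨(x, y), Finset.mem_product.2 ⟨hx, hy⟩, hx', hy'⟩
  · rw [Finset.card_product, b4]
    rcases hH with ⟨hn, hj⟩ | ⟨hp, hj⟩
    · rw [if_neg (by omega), if_neg (fun h => hj h.2), Nat.add_sub_cancel]
      have h1 : (SA 1).card = 2 ^ (R m).card := by
        rcases jac_cases m with h | h | h
        · exact cA4 (jac_dvd.1 h) (hH1 (Or.inl (jac_dvd.1 h))) 1 (Or.inl rfl)
        · exact absurd h hj
        · exact cA1 h 1
      rw [h1, ← mul_pow]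
      norm_num
    · rw [if_pos hp, if_pos ⟨hp, hj⟩]
      obtain ⟨p, hpR, hpj⟩ := hH1 (Or.inr ⟨hp, hj⟩)
      have h1 := cA3 hj ⟨p, hpR, hpj⟩
      obtain ⟨t, ht⟩ := Nat.exists_eq_succ_of_ne_zero (Finset.card_pos.2 ⟨p, hpR⟩).ne'
      rw [ht, Nat.succ_eq_add_one] at h1 ⊢
      have e1 : t + 1 + 1 - 2 = t := by omega
      rw [pow_succ] at h1
      have h2 : (SA 1).card = 2 ^ t := by omega
      rw [e1, h2, ← mul_pow]
      norm_num

/-! ### `3` inert -/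

lemma eqv_sign {m a b : ℤ} (hm : 0 < m) (ha : a ≠ 0) (hb : b ≠ 0) (h : Eqv' m a b) :
    0 < a ↔ 0 < b := by
  have h1 : 0 < a * b := by
    rcases h with ⟨r, hr⟩ | ⟨r, hr⟩
    · have h0 : a * b ≠ 0 := mul_ne_zero ha hb
      have h2 : 0 ≤ a * b := hr ▸ mul_self_nonneg r
      omega
    · have h0 : a * b ≠ 0 := mul_ne_zero ha hb
      by_contra hcon
      have h2 : a * b < 0 := by omega
      have h3 := mul_neg_of_neg_of_pos h2 hm
      have h4 : 0 ≤ a * b * m := hr ▸ mul_self_nonneg r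
      omega
  exact pos_iff_pos_of_mul_pos h1

lemma eqv_three {m a b : ℤ} (h3 : ¬ (3 : ℤ) ∣ m) (ha : ¬ (3 : ℤ) ∣ a) (hb : ¬ (3 : ℤ) ∣ b)
    (h : Eqv' m a (-3 * b)) : False := by
  have key : ∀ x : ℤ, ¬ (3 : ℤ) ∣ x → ¬ IsSquare (-3 * x) := by
    rintro x hx ⟨r, hr⟩
    have h1 : (3 : ℤ) ∣ r * r := ⟨-x, by rw [← hr]; ring⟩
    have h2 : (3 : ℤ) ∣ r := by
      rcases Int.prime_three.dvd_or_dvd h1 with h | h <;> exact h
    obtain ⟨k, rfl⟩ := h2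
    apply hx
    exact ⟨-(k * k), by linarith⟩
  rcases h with h | h
  · refine key (a * b) (fun h1 => ?_) ?_
    · rcases Int.prime_three.dvd_or_dvd h1 with h | h
      · exact ha h
      · exact hb h
    · have e : -3 * (a * b) = a * (-3 * b) := by ring
      rw [e]
      exact h
  · refine key (a * b * m) (fun h1 => ?_) ?_
    · rcases Int.prime_three.dvd_or_dvd h1 with h | h
      · rcases Int.prime_three.dvd_or_dvd h with h | h
        · exact ha h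
        · exact hb h
      · exact h3 h
    · have e : -3 * (a * b * m) = a * (-3 * b) * m := by ring
      rw [e]
      exact h

lemma eqv_symm {m a b : ℤ} (h : Eqv' m a b) : Eqv' m b a := by
  unfold Eqv' at *
  rwa [mul_comm b a]

lemma eqv_m3 {m a b : ℤ} : Eqv' m (-3 * a) (-3 * b) ↔ Eqv' m a b := by
  have key : ∀ x : ℤ, IsSquare (9 * x) ↔ IsSquare x := by
    intro x
    constructor
    · rintro ⟨r, hr⟩
      have h1 : (3 : ℤ) ∣ r * r := ⟨3 * x, by rw [← hr]; ring⟩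
      have h2 : (3 : ℤ) ∣ r := by
        rcases Int.prime_three.dvd_or_dvd h1 with h | h <;> exact h
      obtain ⟨k, rfl⟩ := h2
      exact ⟨k, by linarith⟩
    · rintro ⟨r, hr⟩
      exact ⟨3 * r, by rw [hr]; ring⟩
  unfold Eqv'
  have e1 : -3 * a * (-3 * b) = 9 * (a * b) := by ring
  have e2 : -3 * a * (-3 * b) * m = 9 * (a * b * m) := by ring
  rw [e2, e1, key, key]

theorem count2 {m : ℤ} (hm : Squarefree m) (hm1 : m ≠ 1) (hm2 : m ≠ -1) (h3 : m % 3 = 2)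
    (hH : (m < 0 ∧ jacobiSym m 5 = 1) ∨ (0 < m ∧ jacobiSym m 5 ≠ 1))
    (hH1 : (5 : ℤ) ∣ m → ∃ p : ℕ, p ∈ R m ∧ jacobiSym p 5 = -1) :
    ∃ S : Finset (ℤ × ℤ), (∀ z ∈ S, Rel' m z.1 z.2) ∧
      (∀ z ∈ S, ∀ z' ∈ S, Eqv' m z.1 z'.1 → Eqv' m z.2 z'.2 → z = z') ∧
      (∀ a b : ℤ, Rel' m a b → ∃ z ∈ S, Eqv' m a z.1 ∧ Eqv' m b z.2) ∧
      S.card = 4 ^ (R m).card := by
  obtain ⟨SA, hA, cA1, cA2, -, cA4⟩ := part_A hm hm1 hm2
  obtain ⟨SB, ⟨b1, b2, b3⟩, b4⟩ := part_B (s := False) hm hm1 hm2 (fun h => h.elim) (fun h => h.elim)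
  rw [if_neg (fun h => h), Nat.add_sub_cancel] at b4
  have h3m : ¬ (3 : ℤ) ∣ m := by omega
  have hA3 : ∀ e : ℤ, e = 1 ∨ e = -1 → ∀ a ∈ SA e, ¬ (3 : ℤ) ∣ a :=
    fun e he a ha h => h3m (((hA e he).1 a ha).three h)
  have hB3 : ∀ b ∈ SB, ¬ (3 : ℤ) ∣ b := fun b hb h => h3m ((b1 b hb).three h)
  have hB0 : ∀ b ∈ SB, b ≠ 0 := fun b hb => (b1 b hb).1.ne_zero
  set Sp : Finset ℤ := SB.filter (fun b => 0 < m → 0 < b) with hSp
  set Sn : Finset ℤ := SB.filter (fun b => 0 < m → b < 0) with hSn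
  set S1 : Finset (ℤ × ℤ) := SA 1 ×ˢ Sp with hS1
  set S2 : Finset (ℤ × ℤ) := (SA (-1) ×ˢ Sn).image (fun z => (-3 * z.1, -3 * z.2)) with hS2
  have m1 : ∀ z ∈ S1, z.1 ∈ SA 1 ∧ z.2 ∈ SB ∧ (0 < m → 0 < z.2) := by
    intro z hz
    rw [hS1, Finset.mem_product, hSp, Finset.mem_filter] at hz
    exact hz
  have m2 : ∀ z ∈ S2, ∃ w : ℤ × ℤ, z = (-3 * w.1, -3 * w.2) ∧ w.1 ∈ SA (-1) ∧ w.2 ∈ SB ∧
      (0 < m → w.2 < 0) := by
    intro z hz
    rw [hS2, Finset.mem_image] at hz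
    obtain ⟨w, hw, rfl⟩ := hz
    rw [Finset.mem_product, hSn, Finset.mem_filter] at hw
    exact ⟨w, rfl, hw⟩
  refine ⟨S1 ∪ S2, ?_, ?_, ?_, ?_⟩
  · intro z hz
    rcases Finset.mem_union.1 hz with hz | hz
    · obtain ⟨h1, h2, h4⟩ := m1 z hz
      have hb := b1 _ h2
      exact of_rel ((hA 1 (Or.inl rfl)).1 _ h1) ⟨hb.1, hb.2.1, hb.2.2.1, hb.2.2.2.1, hb.2.2.2.2.1, h4⟩
    · obtain ⟨w, rfl, h1, h2, h4⟩ := m2 z hz
      exact of_rel3 h3 ((hA (-1) (Or.inr rfl)).1 _ h1) (b1 _ h2) h4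
  · intro z hz z' hz' e1 e2
    rcases Finset.mem_union.1 hz with hz | hz <;> rcases Finset.mem_union.1 hz' with hz' | hz'
    · obtain ⟨h1, h2, -⟩ := m1 z hz
      obtain ⟨h1', h2', -⟩ := m1 z' hz'
      exact Prod.ext ((hA 1 (Or.inl rfl)).2.1 _ h1 _ h1' e1) (b2 _ h2 _ h2' e2)
    · obtain ⟨h1, h2, -⟩ := m1 z hz
      obtain ⟨w, rfl, h1', h2', -⟩ := m2 z' hz'
      exact (eqv_three h3m (hA3 1 (Or.inl rfl) _ h1) (hA3 (-1) (Or.inr rfl) _ h1') e1).elim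
    · obtain ⟨w, rfl, h1, h2, -⟩ := m2 z hz
      obtain ⟨h1', h2', -⟩ := m1 z' hz'
      exact (eqv_three h3m (hA3 1 (Or.inl rfl) _ h1') (hA3 (-1) (Or.inr rfl) _ h1) (eqv_symm e1)).elim
    · obtain ⟨w, rfl, h1, h2, -⟩ := m2 z hz
      obtain ⟨w', rfl, h1', h2', -⟩ := m2 z' hz'
      have e3 : w.1 = w'.1 := (hA (-1) (Or.inr rfl)).2.1 _ h1 _ h1' (eqv_m3.1 e1)
      have e4 : w.2 = w'.2 := b2 _ h2 _ h2' (eqv_m3.1 e2)
      rw [e3, e4]
  · intro a b h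
    by_cases hd : (3 : ℤ) ∣ a
    · obtain ⟨a', b', rfl, rfl, ha, hb, hs⟩ := rel_of3 h3 h hd
      obtain ⟨x, hx, hx'⟩ := (hA (-1) (Or.inr rfl)).2.2 a' ha
      obtain ⟨y, hy, hy'⟩ := b3 b' hb
      refine ⟨(-3 * x, -3 * y), Finset.mem_union_right _ ?_, eqv_m3.2 hx', eqv_m3.2 hy'⟩
      rw [hS2, Finset.mem_image]
      refine ⟨(x, y), ?_, rfl⟩
      rw [Finset.mem_product, hSn, Finset.mem_filter]
      refine ⟨hx, hy, fun hm0 => ?_⟩
      have h1 := eqv_sign hm0 hb.1.ne_zero (hB0 y hy) hy'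
      have h2 := hs hm0
      have h4 := hB0 y hy
      show y < 0
      by_contra hcon
      have h5 := h1.2 (by omega)
      omega
    · obtain ⟨ha, hb⟩ := rel_of h (fun h4 => absurd h4 hd)
        (fun h4 => absurd ((h.c3.2 h3).2 h4) hd)
      obtain ⟨x, hx, hx'⟩ := (hA 1 (Or.inl rfl)).2.2 a ha
      obtain ⟨y, hy, hy'⟩ := b3 b ⟨hb.1, hb.2.1, hb.2.2.1, hb.2.2.2.1, hb.2.2.2.2.1, fun h => h.elim⟩
      refine ⟨(x, y), Finset.mem_union_left _ ?_, hx', hy'⟩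
      rw [hS1, Finset.mem_product, hSp, Finset.mem_filter]
      exact ⟨hx, hy, fun hm0 => (eqv_sign hm0 hb.1.ne_zero (hB0 y hy) hy').1 (hb.2.2.2.2.2 hm0)⟩
  · have hdis : Disjoint S1 S2 := by
      rw [Finset.disjoint_left]
      intro z hz hz'
      obtain ⟨h1, -, -⟩ := m1 z hz
      obtain ⟨w, rfl, -, -, -⟩ := m2 z hz'
      exact hA3 1 (Or.inl rfl) _ h1 (Dvd.intro (-w.1) (by ring))
    have hc2 : S2.card = (SA (-1)).card * Sn.card := by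
      rw [hS2, Finset.card_image_of_injective, Finset.card_product]
      rintro ⟨x, y⟩ ⟨x', y'⟩ h
      simp only [Prod.mk.injEq] at h
      obtain ⟨h1, h2⟩ := h
      have e1 : x = x' := by omega
      have e2 : y = y' := by omega
      rw [e1, e2]
    rw [Finset.card_union_of_disjoint hdis, hc2, hS1, Finset.card_product]
    rcases hH with ⟨hn, hj⟩ | ⟨hp, hj⟩
    · have e1 : Sp = SB := by
        rw [hSp]
        exact Finset.filter_true_of_mem fun b _ h => by omega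
      have e2 : Sn = SB := by
        rw [hSn]
        exact Finset.filter_true_of_mem fun b _ h => by omega
      rw [e1, e2, b4, ← add_mul, cA2 hj, ← mul_pow]
      norm_num
    · have hc : Sp.card + Sn.card = 2 ^ (R m).card := by
        have e2 : Sn = SB.filter (fun b => ¬ (0 < m → 0 < b)) := by
          rw [hSn]
          refine Finset.filter_congr fun b hb => ?_
          have h1 := hB0 b hb
          constructor
          · intro h2 h4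
            have := h2 hp
            have := h4 hp
            omega
          · intro h2 _
            by_contra h4
            exact h2 fun _ => by omega
        rw [e2, hSp, Finset.card_filter_add_card_filter_not, b4]
      have hAc : ∀ e : ℤ, e = 1 ∨ e = -1 → (SA e).card = 2 ^ (R m).card := by
        intro e he
        rcases jac_cases m with h | h | h
        · exact cA4 (jac_dvd.1 h) (hH1 (jac_dvd.1 h)) e he
        · exact absurd h hj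
        · exact cA1 h e
      rw [hAc 1 (Or.inl rfl), hAc (-1) (Or.inr rfl), ← mul_add, hc, ← mul_pow]
      norm_num

end Pool.Agent.N521.K15
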